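import Pool.Agent.X22.EQ9

/-!
# Quadratic characters at the central point: moments and typical size of the Euler products in arbitrarily thin families

Nothing is used besides Mathlib in the statement.
-/

set_option autoImplicit false

namespace Pool.Agent.Results.MP_ea46f5_nt.FewDigitCentralMoments

open Finset

/-- The Euler product over the primes `p` with `y < p ≤ x` of `L (1 / 2, χ_m w)`, where `χ_m (p)` is the quadratic residue symbol `(m / p)`:
the product of `1 / (1 - w (p) χ_m (p) / √p)`. -/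
noncomputable def eulerProduct (w : ℕ → ℝ) (m : ℕ) (y x : ℕ) : ℝ :=
  ∏ p ∈ (Ioc y x).filter Nat.Prime, (1 - w p * (jacobiSym (m : ℤ) p : ℝ) / Real.sqrt p)⁻¹

/-- The local factor at `p` of the moment with exponent `κ`: the average of `(1 - χ_m (p) / √p) ^ (-κ)` over the residue classes `m` modulo `p`. -/
noncomputable def localFactor (κ : ℝ) (p : ℕ) : ℝ :=
  (((p : ℝ) - 1) / 2 * ((1 - 1 / Real.sqrt p) ^ (-κ) + (1 + 1 / Real.sqrt p) ^ (-κ)) + 1) / p

/-- The product of the local factors over the primes `p` with `y < p ≤ x`. -/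
noncomputable def arithmeticFactor (κ : ℝ) (y x : ℕ) : ℝ := ∏ p ∈ (Ioc y x).filter Nat.Prime, localFactor κ p

/-- `log (log x / log y)`. -/
noncomputable def level (y x : ℕ) : ℝ := Real.log (Real.log x / Real.log y)

/-- The sum of `w (p) ^ 2 / (2 p)` over the primes `p` with `y < p ≤ x`. -/
noncomputable def mainTerm (w : ℕ → ℝ) (y x : ℕ) : ℝ := ∑ p ∈ (Ioc y x).filter Nat.Prime, w p ^ 2 / (2 * p)

/-- The digit number `i` (counted from the right, beginning with `0`) of `n` in base `b`. -/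
def digit (b i n : ℕ) : ℕ := n / b ^ i % b

/-- The number which arises from the number `N` with at most `K` digits in base `b`, if for every `i ∈ S`
the digit number `i` is replaced by `f i`. -/
def change (b K N : ℕ) (f : ℕ → ℕ) (S : Finset ℕ) : ℕ :=
  ∑ i ∈ range K, (if i ∈ S then f i else digit b i N) * b ^ i

/-- The average of `F (m)` over the numbers `m` which arise by the `K.choose r` changes of `r` of the `K` digits of `N`. -/
noncomputable def average (b K r N : ℕ) (f : ℕ → ℕ) (F : ℕ → ℝ) : ℝ :=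
  (∑ S ∈ powersetCard r (range K), F (change b K N f S)) / (K.choose r : ℝ)

open Classical in
/-- The number of the choices of `r` of `K` positions for which the number obtained by changing the digits of `N` at the chosen positions (according to `f`) does not have
the property `E`. -/
noncomputable def exceptions (b K r N : ℕ) (f : ℕ → ℕ) (E : ℕ → Prop) : ℕ :=
  ((powersetCard r (range K)).filter (fun S => ¬ E (change b K N f S))).card

open Pool.Agent.X22.EQ Pool.Agent.TH894.NE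
open Pool.Agent.X22.ND (chi chi_abs chi_mod card_one)

lemma jac (m p : ℕ) (hp : p.Prime) : (jacobiSym (m : ℤ) p : ℝ) = chi p m := by
  have hf : Fact p.Prime := ⟨hp⟩
  unfold Pool.Agent.X22.ND.chi
  rw [dif_pos hp, ← jacobiSym.legendreSym.to_jacobiSym]
  unfold legendreSym
  rw [Int.cast_natCast]

lemma local_log (p : ℕ) (hp : 64 ≤ p) (w χ : ℝ) (hw : |w| ≤ 1) (hχ : |χ| ≤ 1) :
    0 < 1 - w * χ / Real.sqrt p ∧ |Real.log (1 - w * χ / Real.sqrt p)⁻¹| ≤ 2 / Real.sqrt p := by
  have hpr : (64 : ℝ) ≤ p := by exact_mod_cast hp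
  have hs : 8 ≤ Real.sqrt p := Real.le_sqrt_of_sq_le (by norm_num; linarith)
  have hs0 : 0 < Real.sqrt p := by linarith
  obtain ⟨x, hx⟩ : ∃ x : ℝ, x = w * χ / Real.sqrt p := ⟨_, rfl⟩
  have h1 : |x| ≤ 1 / Real.sqrt p := by
    rw [hx, abs_div, abs_of_pos hs0, abs_mul]
    apply div_le_div_of_nonneg_right _ hs0.le
    calc |w| * |χ| ≤ 1 * 1 := mul_le_mul hw hχ (abs_nonneg _) (by norm_num)
      _ = 1 := one_mul 1
  have h2 : |x| ≤ 1 / 8 := h1.trans (one_div_le_one_div_of_le (by norm_num) hs)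
  rw [← hx]
  refine ⟨by have := (abs_le.1 h2).2; linarith, ?_⟩
  rw [Real.log_inv, abs_neg]
  have h3 := log_exp x (by linarith)
  have e2 : Real.log (1 - x) = (Real.log (1 - x) + x + x ^ 2 / 2) - x - x ^ 2 / 2 := by ring
  rw [e2]
  refine (abs_sub _ _).trans ((add_le_add (abs_sub _ _) le_rfl).trans ?_)
  rw [abs_of_nonneg (by positivity : (0 : ℝ) ≤ x ^ 2 / 2)]
  have h5 : x ^ 2 = |x| ^ 2 := (sq_abs x).symm
  have h6 : 0 ≤ |x| := abs_nonneg x
  have h7 : 2 * |x| ^ 3 + |x| + x ^ 2 / 2 ≤ 2 * |x| := by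
    rw [h5]
    nlinarith [mul_nonneg h6 h6, mul_nonneg (mul_nonneg h6 h6) h6]
  calc |Real.log (1 - x) + x + x ^ 2 / 2| + |x| + x ^ 2 / 2 ≤ 2 * |x| ^ 3 + |x| + x ^ 2 / 2 := by linarith
    _ ≤ 2 * |x| := h7
    _ ≤ 2 * (1 / Real.sqrt p) := by linarith
    _ = _ := by ring

lemma local_mean (p : ℕ) (hp' : p.Prime) (hp : 64 ≤ p) (w : ℝ) (hw : |w| ≤ 1) :
    |mean 1 p (fun m => Real.log (1 - w * chi p (m 0) / Real.sqrt p)⁻¹) - w ^ 2 / (2 * p)| ≤ 2 / (p : ℝ) ^ (3 / 2 : ℝ) := by
  have hpr : (64 : ℝ) ≤ p := by exact_mod_cast hp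
  have hp0 : (0 : ℝ) < p := by linarith
  have hs : 8 ≤ Real.sqrt p := Real.le_sqrt_of_sq_le (by norm_num; linarith)
  have hs0 : 0 < Real.sqrt p := by linarith
  have hss : Real.sqrt p * Real.sqrt p = p := Real.mul_self_sqrt hp0.le
  have h1 := mean_chi p hp' (by omega) (fun χ => Real.log (1 - w * χ / Real.sqrt p)⁻¹)
  rw [h1]
  obtain ⟨u, hu⟩ : ∃ u : ℝ, u = w ^ 2 / p := ⟨_, rfl⟩
  have hw2 : w ^ 2 ≤ 1 := by
    rw [← sq_abs]
    exact pow_le_one₀ (abs_nonneg _) hw
  have hu0 : 0 ≤ u := by rw [hu]; positivity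
  have hu1 : u ≤ 1 / p := by rw [hu]; exact div_le_div_of_nonneg_right hw2 hp0.le
  have hu2 : u ≤ 1 / 64 := hu1.trans (one_div_le_one_div_of_le (by norm_num) hpr)
  have ha := (local_log p hp w 1 hw (by norm_num)).1
  have hb := (local_log p hp w (-1) hw (by norm_num)).1
  have e1 : Real.log (1 - w * 1 / Real.sqrt p)⁻¹ + Real.log (1 - w * (-1) / Real.sqrt p)⁻¹ = -Real.log (1 - u) := by
    rw [Real.log_inv, Real.log_inv, ← neg_add, ← Real.log_mul ha.ne' hb.ne', hu]
    congr 2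
    have : (1 - w * 1 / Real.sqrt p) * (1 - w * (-1) / Real.sqrt p) = 1 - w ^ 2 / (Real.sqrt p * Real.sqrt p) := by
      field_simp
      ring
    rw [this, hss]
  show |((p - 1) / 2 * (Real.log (1 - w * 1 / Real.sqrt p)⁻¹ + Real.log (1 - w * (-1) / Real.sqrt p)⁻¹) + Real.log (1 - w * 0 / Real.sqrt p)⁻¹) / p - w ^ 2 / (2 * p)| ≤ _
  rw [e1, mul_zero, zero_div, sub_zero, inv_one, Real.log_one, add_zero]
  have h3 := log_exp u (by rw [abs_of_nonneg hu0]; linarith)
  rw [abs_of_nonneg hu0] at h3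
  obtain ⟨ρ, hρ⟩ : ∃ ρ : ℝ, ρ = Real.log (1 - u) + u := ⟨_, rfl⟩
  have h4 : |ρ| ≤ u ^ 2 := by
    have e2 : ρ = (Real.log (1 - u) + u + u ^ 2 / 2) - u ^ 2 / 2 := by rw [hρ]; ring
    rw [e2]
    refine (abs_sub _ _).trans ?_
    rw [abs_of_nonneg (by positivity : (0 : ℝ) ≤ u ^ 2 / 2)]
    nlinarith
  have e3 : ((p : ℝ) - 1) / 2 * -Real.log (1 - u) / p - w ^ 2 / (2 * p) = -(1 - 1 / p) / 2 * ρ - u / (2 * p) := by
    have e4 : Real.log (1 - u) = ρ - u := by rw [hρ]; ring
    have e5 : w ^ 2 = u * p := by rw [hu]; field_simp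
    rw [e4, e5]
    field_simp
    ring
  rw [e3]
  have hinv : (1 : ℝ) / p ≤ 1 := by rw [div_le_one hp0]; linarith
  have hinv0 : (0 : ℝ) < 1 / p := by positivity
  refine (abs_sub _ _).trans ?_
  have h5 : |-(1 - 1 / (p : ℝ)) / 2 * ρ| ≤ (1 / p) ^ 2 := by
    rw [abs_mul, abs_div, abs_neg, abs_of_nonneg (by linarith : (0 : ℝ) ≤ 1 - 1 / p), abs_of_pos (by norm_num : (0 : ℝ) < 2)]
    have : u ^ 2 ≤ (1 / p) ^ 2 := pow_le_pow_left₀ hu0 hu1 2
    nlinarith [abs_nonneg ρ]
  have h6 : |u / (2 * (p : ℝ))| ≤ (1 / p) ^ 2 := by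
    rw [abs_of_nonneg (by positivity)]
    calc u / (2 * (p : ℝ)) ≤ (1 / p) / (2 * p) := div_le_div_of_nonneg_right hu1 (by positivity)
      _ = (1 / p) ^ 2 / 2 := by field_simp
      _ ≤ (1 / p) ^ 2 := by have : (0 : ℝ) ≤ (1 / p) ^ 2 := by positivity
                            linarith
  have h7 : (1 / (p : ℝ)) ^ 2 ≤ 1 / (p : ℝ) ^ (3 / 2 : ℝ) := by
    rw [rpow_three_half, one_div_pow]
    apply one_div_le_one_div_of_le (by positivity)
    have e6 : (p : ℝ) ^ 2 = Real.sqrt p ^ 3 * Real.sqrt p := by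
      calc (p : ℝ) ^ 2 = (Real.sqrt p * Real.sqrt p) ^ 2 := by rw [hss]
        _ = _ := by ring
    rw [e6]
    have : 0 < Real.sqrt p ^ 3 := by positivity
    nlinarith
  calc |-(1 - 1 / (p : ℝ)) / 2 * ρ| + |u / (2 * (p : ℝ))| ≤ 1 / (p : ℝ) ^ (3 / 2 : ℝ) + 1 / (p : ℝ) ^ (3 / 2 : ℝ) := by linarith
    _ = _ := by ring

/-- **The central point in thin families of quadratic characters.** Let a base `b ≥ 2`, an integer `A ≥ 0` and `δ > 0`, `B ≥ 0` be given. There are
`c > 0`, `C > 0` and `y₀` such that for all integers `r`, `K`, `y` with `2 r ≤ K` and `y ≥ y₀`, all integers `0 ≤ N < b ^ K` and all prescribed digits `f j`, different from the digits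
number `j` of `N` in base `b`, the following holds for the numbers `m` which arise if one replaces the digits of `N` at `r` of the `K` positions.

(1) For all integers `z` with `y ≤ z ≤ c √r` and all real `κ` the average of the power with exponent `κ` of the Euler product over `y < p ≤ z` of `L (1 / 2, χ_m)` is
the product of the local factors, up to a relative error of at most `exp (-z)`; and if `|κ| ≤ B`, then the logarithm of the product of the local factors differs from
`(κ (κ + 1) / 2) log (log z / log y)` by at most `C`, for all `z ≥ y`.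

(2) Let `Λ` be a finite set of real functions `w` with `|w (n)| ≤ 1`, and `T > 0`. For all but at most a proportion `C #Λ / T ^ A` of the choices of the positions one has for all
integers `x` with `y ≤ x ≤ exp (c √r)` and all `w` from `Λ`, with the Euler product `P` over `y < p ≤ x` of `L (1 / 2, χ_m w)` and `λ = log (log x / log y)`:
`|log P - ∑ w (p) ^ 2 / (2 p)| ≤ T (1 + λ) ^ (1 / 2 + δ)`, and, if `w (p) = ± 1` for all primes `p > y`, `|log P - λ / 2| ≤ T (1 + λ) ^ (1 / 2 + δ)`. -/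
theorem result (b : ℕ) (hb : 2 ≤ b) (δ : ℝ) (hδ : 0 < δ) (A : ℕ) (B : ℝ) (hB : 0 ≤ B) :
    ∃ c : ℝ, 0 < c ∧ ∃ C : ℝ, 0 < C ∧ ∃ y₀ : ℕ,
    ∀ (K r : ℕ) (y : ℕ), 2 * r ≤ K → y₀ ≤ y →
    ∀ N : ℕ, N < b ^ K → ∀ f : ℕ → ℕ, (∀ j, f j < b ∧ f j ≠ digit b j N) →
      (∀ z : ℕ, y ≤ z → (z : ℝ) ≤ c * Real.sqrt r → ∀ κ : ℝ,
        |average b K r N f (fun m => eulerProduct (fun _ => 1) m y z ^ κ) - arithmeticFactor κ y z| ≤ Real.exp (-(z : ℝ)) * arithmeticFactor κ y z) ∧
      (∀ z : ℕ, y ≤ z → ∀ κ : ℝ, |κ| ≤ B → 0 < arithmeticFactor κ y z ∧ |Real.log (arithmeticFactor κ y z) - κ * (κ + 1) / 2 * level y z| ≤ C) ∧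
      ∀ (ι : Type) (Λ : Finset ι) (w : ι → ℕ → ℝ), (∀ l ∈ Λ, ∀ n, |w l n| ≤ 1) → ∀ T : ℝ, 0 < T →
        (exceptions b K r N f (fun m => ∀ x : ℕ, y ≤ x → (x : ℝ) ≤ Real.exp (c * Real.sqrt r) → ∀ l ∈ Λ,
          0 < eulerProduct (w l) m y x ∧
          |Real.log (eulerProduct (w l) m y x) - mainTerm (w l) y x| ≤ T * (1 + level y x) ^ (1 / 2 + δ) ∧
          ((∀ p : ℕ, p.Prime → y < p → w l p ^ 2 = 1) →
            |Real.log (eulerProduct (w l) m y x) - level y x / 2| ≤ T * (1 + level y x) ^ (1 / 2 + δ))) : ℝ) ≤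
          C * Λ.card / T ^ A * (K.choose r : ℝ) := by
  classical
  obtain ⟨C₀, hC₀, hmer⟩ := hs_la
  obtain ⟨c₁, hc₁, havg⟩ := prod_avg b 1 hb le_rfl
  obtain ⟨c₂, hc₂, C₂, hC₂, y₂, hmax⟩ := central_main b 1 A hb le_rfl δ hδ 2 2 C₀ (by norm_num) (by norm_num) hC₀
  obtain ⟨C₃, hC₃, p₃, hloc⟩ := loc_near B hB
  obtain ⟨S₀, hS₀⟩ : ∃ S₀ : ℝ, S₀ = ∑' n : ℕ, 1 / (n : ℝ) ^ (3 / 2 : ℝ) := ⟨_, rfl⟩
  have hsum : Summable (fun n : ℕ => 1 / (n : ℝ) ^ (3 / 2 : ℝ)) := Real.summable_one_div_nat_rpow.2 (by norm_num)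
  have hS₀0 : 0 ≤ S₀ := by rw [hS₀]; exact tsum_nonneg fun n => by positivity
  obtain ⟨C₄, hC₄⟩ : ∃ C₄ : ℝ, C₄ = C₃ * S₀ + B * (B + 1) / 2 * C₀ := ⟨_, rfl⟩
  have hC₄0 : 0 ≤ C₄ := by rw [hC₄]; positivity
  refine ⟨min c₁ (Real.sqrt c₂), lt_min hc₁ (Real.sqrt_pos.2 hc₂), C₂ + C₄, by positivity, y₂ + p₃ + b * b + 64, fun K r y hrK hy N hN f hf => ⟨?_, ?_, ?_⟩⟩
  · intro z hyz hzr κ
    have hzr' : (z : ℝ) ≤ c₁ * Real.sqrt r := hzr.trans (mul_le_mul_of_nonneg_right (min_le_left _ _) (Real.sqrt_nonneg _))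
    have h1 := havg (fun _ => r) (fun _ => K) y z (fun _ => hrK) (by omega) hyz (fun _ => hzr') (fun _ => N) (fun _ => hN) (fun _ => f) (fun _ => hf)
      (fun p m => (1 - chi p (m 0) / Real.sqrt p) ^ (-κ)) (fun p hp _ m => by
        show (1 - chi p (m 0) / Real.sqrt p) ^ (-κ) = (1 - chi p (m 0 % p) / Real.sqrt p) ^ (-κ)
        rw [chi_mod])
    have hfac : ∀ p ∈ pin y z, ∀ n : ℕ, 0 < 1 - chi p n / Real.sqrt p := by
      intro p hp n
      rw [mem_pin] at hp
      have := (local_log p (by omega) 1 (chi p n) (by norm_num) (chi_abs p n)).1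
      rwa [one_mul] at this
    have hP : ∀ n : ℕ, ∏ p ∈ pin y z, (1 - chi p n / Real.sqrt p) ^ (-κ) = eulerProduct (fun _ => 1) n y z ^ κ := by
      intro n
      unfold eulerProduct
      rw [← Real.finset_prod_rpow]
      · refine prod_congr rfl fun p hp => ?_
        rw [jac n p (mem_pin.1 hp).2, one_mul, Real.inv_rpow (hfac p hp n).le, Real.rpow_neg (hfac p hp n).le]
      · intro p hp
        rw [jac n p (mem_pin.1 hp).2, one_mul]
        exact (inv_pos.2 (hfac p hp n)).le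
    have hmean : ∀ p ∈ pin y z, mean 1 p (fun m => (1 - chi p (m 0) / Real.sqrt p) ^ (-κ)) = localFactor κ p := by
      intro p hp
      rw [mem_pin] at hp
      have h2 := mean_chi p hp.2 (by omega) (fun χ => (1 - χ / Real.sqrt p) ^ (-κ))
      rw [h2]
      unfold localFactor
      show ((p - 1) / 2 * ((1 - 1 / Real.sqrt p) ^ (-κ) + (1 - -1 / Real.sqrt p) ^ (-κ)) + (1 - 0 / Real.sqrt p) ^ (-κ)) / p = _
      rw [neg_div, sub_neg_eq_add, zero_div, sub_zero, Real.one_rpow]
    have hmean2 : ∀ p ∈ pin y z, mean 1 p (fun m => |(1 - chi p (m 0) / Real.sqrt p) ^ (-κ)|) = localFactor κ p := by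
      intro p hp
      rw [← hmean p hp]
      congr 1
      funext m
      exact abs_of_pos (Real.rpow_pos_of_pos (hfac p hp _) _)
    rw [prod_congr rfl hmean, prod_congr rfl hmean2, Fin.prod_univ_one] at h1
    have hsumS : ∑ S ∈ Fintype.piFinset (fun _ : Fin 1 => powersetCard r (range K)), ∏ p ∈ pin y z,
        (1 - chi p (Pool.Agent.TH894.SM.change b K N f (S 0)) / Real.sqrt p) ^ (-κ) =
        ∑ S ∈ powersetCard r (range K), eulerProduct (fun _ => 1) (change b K N f S) y z ^ κ := by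
      refine sum_nbij' (fun S => S 0) (fun S => fun _ => S) ?_ ?_ ?_ ?_ ?_
      · intro S hS
        exact Fintype.mem_piFinset.1 hS 0
      · intro S hS
        exact Fintype.mem_piFinset.2 (fun _ => hS)
      · intro S _
        funext i
        rw [Subsingleton.elim i 0]
      · intro S _
        rfl
      · intro S _
        exact hP _
    rw [hsumS] at h1
    have hch : (0 : ℝ) < (K.choose r : ℝ) := by
      exact_mod_cast Nat.choose_pos (by omega)
    have hA : ∏ p ∈ pin y z, localFactor κ p = arithmeticFactor κ y z := rfl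
    rw [hA] at h1
    unfold average
    rw [div_sub' hch.ne', abs_div, abs_of_pos hch, div_le_iff₀ hch]
    have e1 : (K.choose r : ℝ) * arithmeticFactor κ y z = arithmeticFactor κ y z * (K.choose r : ℝ) := mul_comm _ _
    rw [e1]
    exact h1
  · intro z hyz κ hκ
    have hpos : ∀ p ∈ pin y z, 0 < localFactor κ p := by
      intro p hp
      rw [mem_pin] at hp
      exact (hloc κ hκ p (by omega)).1
    have hA : arithmeticFactor κ y z = ∏ p ∈ pin y z, localFactor κ p := rfl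
    refine ⟨by rw [hA]; exact prod_pos hpos, ?_⟩
    rw [hA, Real.log_prod (fun p hp => (hpos p hp).ne')]
    have h1 : |∑ p ∈ pin y z, Real.log (localFactor κ p) - κ * (κ + 1) / 2 * hs y z| ≤ C₃ * S₀ := by
      unfold hs
      rw [mul_sum, ← sum_sub_distrib]
      refine (abs_sum_le_sum_abs _ _).trans ?_
      have h2 : ∀ p ∈ pin y z, |Real.log (localFactor κ p) - κ * (κ + 1) / 2 * (1 / (p : ℝ))| ≤ C₃ * (1 / (p : ℝ) ^ (3 / 2 : ℝ)) := by
        intro p hp
        rw [mem_pin] at hp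
        have h3 := (hloc κ hκ p (by omega)).2
        have e1 : κ * (κ + 1) / 2 * (1 / (p : ℝ)) = κ * (κ + 1) / 2 / p := by ring
        have e2 : C₃ * (1 / (p : ℝ) ^ (3 / 2 : ℝ)) = C₃ / (p : ℝ) ^ (3 / 2 : ℝ) := by ring
        rw [e1, e2]
        exact h3
      refine (sum_le_sum h2).trans ?_
      rw [← mul_sum, hS₀]
      exact mul_le_mul_of_nonneg_left (hsum.sum_le_tsum _ fun n _ => by positivity) hC₃
    have h4 := hmer y z (by omega) hyz
    have h5 : |κ * (κ + 1) / 2| ≤ B * (B + 1) / 2 := by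
      rw [abs_div, abs_of_pos (by norm_num : (0 : ℝ) < 2), abs_mul]
      apply div_le_div_of_nonneg_right _ (by norm_num)
      apply mul_le_mul hκ _ (abs_nonneg _) hB
      refine (abs_add_le _ _).trans ?_
      rw [abs_one]
      linarith
    have e3 : ∑ p ∈ pin y z, Real.log (localFactor κ p) - κ * (κ + 1) / 2 * level y z =
        (∑ p ∈ pin y z, Real.log (localFactor κ p) - κ * (κ + 1) / 2 * hs y z) + κ * (κ + 1) / 2 * (hs y z - la y z) := by
      show _ - κ * (κ + 1) / 2 * la y z = _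
      ring
    rw [e3]
    refine (abs_add_le _ _).trans ?_
    have h6 : |κ * (κ + 1) / 2 * (hs y z - la y z)| ≤ B * (B + 1) / 2 * C₀ := by
      rw [abs_mul]
      exact mul_le_mul h5 h4 (abs_nonneg _) (by positivity)
    linarith
  · intro ι Λ w hw T hT
    obtain ⟨G, hG⟩ : ∃ G : ι → ℕ → (Fin 1 → ℕ) → ℝ, G = fun l p m => Real.log (1 - w l p * chi p (m 0) / Real.sqrt p)⁻¹ := ⟨_, rfl⟩
    have key := hmax (fun _ => K) (fun _ => r) y (fun _ => hrK) (by omega) (fun _ => N) (fun _ => hN) (fun _ => f) (fun _ => hf) ι Λ G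
      (fun l p => w l p ^ 2 / (2 * p)) ?_ ?_ ?_ T hT
      (fun m => ∀ x : ℕ, y ≤ x → (x : ℝ) ≤ Real.exp (min c₁ (Real.sqrt c₂) * Real.sqrt r) → ∀ l ∈ Λ,
          0 < eulerProduct (w l) (m 0) y x ∧
          |Real.log (eulerProduct (w l) (m 0) y x) - mainTerm (w l) y x| ≤ T * (1 + level y x) ^ (1 / 2 + δ) ∧
          ((∀ p : ℕ, p.Prime → y < p → w l p ^ 2 = 1) →
            |Real.log (eulerProduct (w l) (m 0) y x) - level y x / 2| ≤ T * (1 + level y x) ^ (1 / 2 + δ))) ?_
    · rw [Fin.prod_univ_one] at key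
      have h2 := card_one b K r N f (fun m => ∀ x : ℕ, y ≤ x → (x : ℝ) ≤ Real.exp (min c₁ (Real.sqrt c₂) * Real.sqrt r) → ∀ l ∈ Λ,
          0 < eulerProduct (w l) m y x ∧
          |Real.log (eulerProduct (w l) m y x) - mainTerm (w l) y x| ≤ T * (1 + level y x) ^ (1 / 2 + δ) ∧
          ((∀ p : ℕ, p.Prime → y < p → w l p ^ 2 = 1) →
            |Real.log (eulerProduct (w l) m y x) - level y x / 2| ≤ T * (1 + level y x) ^ (1 / 2 + δ)))
      have h3 : (exceptions b K r N f (fun m => ∀ x : ℕ, y ≤ x → (x : ℝ) ≤ Real.exp (min c₁ (Real.sqrt c₂) * Real.sqrt r) → ∀ l ∈ Λ,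
          0 < eulerProduct (w l) m y x ∧
          |Real.log (eulerProduct (w l) m y x) - mainTerm (w l) y x| ≤ T * (1 + level y x) ^ (1 / 2 + δ) ∧
          ((∀ p : ℕ, p.Prime → y < p → w l p ^ 2 = 1) →
            |Real.log (eulerProduct (w l) m y x) - level y x / 2| ≤ T * (1 + level y x) ^ (1 / 2 + δ))) : ℕ) = _ := h2
      rw [h3]
      refine key.trans ?_
      apply mul_le_mul_of_nonneg_right _ (Nat.cast_nonneg _)
      apply div_le_div_of_nonneg_right _ (by positivity)
      apply mul_le_mul_of_nonneg_right _ (Nat.cast_nonneg _)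
      linarith
    · intro l _ p _ _ m
      rw [hG]
      show Real.log (1 - w l p * chi p (m 0) / Real.sqrt p)⁻¹ = Real.log (1 - w l p * chi p (m 0 % p) / Real.sqrt p)⁻¹
      rw [chi_mod]
    · intro l hl p _ hyp m
      rw [hG]
      exact (local_log p (by omega) _ _ (hw l hl p) (chi_abs p _)).2
    · intro l hl p hp hyp
      rw [hG]
      exact local_mean p hp (by omega) (w l p) (hw l hl p)
    · intro m hm x hx1 hx2 l hl
      have h1 := hm x hx1 (fun _ => by
        have hx0 : 0 < x := by omega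
        have h3 : Real.log x ≤ Real.sqrt c₂ * Real.sqrt r := by
          rw [Real.log_le_iff_le_exp (by exact_mod_cast hx0)]
          refine hx2.trans (Real.exp_le_exp.2 ?_)
          exact mul_le_mul_of_nonneg_right (min_le_right _ _) (Real.sqrt_nonneg _)
        have h4 : 0 ≤ Real.log x := Real.log_nonneg (by exact_mod_cast hx0)
        calc Real.log x ^ 2 ≤ (Real.sqrt c₂ * Real.sqrt r) ^ 2 := pow_le_pow_left₀ h4 h3 2
          _ = c₂ * r := by rw [mul_pow, Real.sq_sqrt hc₂.le, Real.sq_sqrt (Nat.cast_nonneg _)]) l hl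
      have hfac : ∀ p ∈ pin y x, 0 < 1 - w l p * chi p (m 0) / Real.sqrt p := by
        intro p hp
        rw [mem_pin] at hp
        exact (local_log p (by omega) _ _ (hw l hl p) (chi_abs p _)).1
      have hE : eulerProduct (w l) (m 0) y x = ∏ p ∈ pin y x, (1 - w l p * chi p (m 0) / Real.sqrt p)⁻¹ := by
        unfold eulerProduct
        exact prod_congr rfl fun p hp => by rw [jac (m 0) p (mem_pin.1 hp).2]
      have hP : 0 < eulerProduct (w l) (m 0) y x := by
        rw [hE]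
        exact prod_pos fun p hp => inv_pos.2 (hfac p hp)
      have hlog : Real.log (eulerProduct (w l) (m 0) y x) = ∑ p ∈ pin y x, G l p m := by
        rw [hE, Real.log_prod (fun p hp => (inv_pos.2 (hfac p hp)).ne'), hG]
      have hmain : Real.log (eulerProduct (w l) (m 0) y x) - mainTerm (w l) y x = ∑ p ∈ pin y x, (G l p m - w l p ^ 2 / (2 * p)) := by
        rw [hlog, sum_sub_distrib]
        rfl
      refine ⟨hP, ?_, fun hw1 => ?_⟩
      · rw [hmain]
        have : T * (1 + la y x) ^ (1 / 2 + δ) = T * (1 + level y x) ^ (1 / 2 + δ) := rfl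
        linarith
      · have h5 : mainTerm (w l) y x = hs y x / 2 := by
          unfold mainTerm hs pin
          rw [sum_div]
          refine sum_congr rfl fun p hp => ?_
          rw [mem_filter, mem_Ioc] at hp
          rw [hw1 p hp.2 hp.1.1]
          ring
        have h6 := hmer y x (by omega) hx1
        have h7 : Real.log (eulerProduct (w l) (m 0) y x) - level y x / 2 =
            (Real.log (eulerProduct (w l) (m 0) y x) - mainTerm (w l) y x) + (hs y x - la y x) / 2 := by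
          rw [h5]
          show _ - la y x / 2 = _
          ring
        rw [h7, hmain]
        refine (abs_add_le _ _).trans ?_
        have h8 : |(hs y x - la y x) / 2| ≤ C₀ := by
          rw [abs_div, abs_of_pos (by norm_num : (0 : ℝ) < 2)]
          linarith
        have : T * (1 + la y x) ^ (1 / 2 + δ) = T * (1 + level y x) ^ (1 / 2 + δ) := rfl
        linarith

end Pool.Agent.Results.MP_ea46f5_nt.FewDigitCentralMoments
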