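import Pool.Agent.X278.AV.MomQ3

/-!
# Moments of quadratic Dirichlet L-functions: smooth Euler products, the exponent and the arithmetic factor

Fix `γ > π/2`. For a quadratic character `ψ` let

`Z_T(ψ) = ∏_p (1 - ψ(p) p^{-1/2})^{-w(log p / T)}`, `w(u) = cos(γu) / Γ(1 + u)`,

a product over all primes which converges absolutely (the weight decays faster than every exponential). We show that
these products converge to the central value: for EVERY quadratic character

`Z_T(ψ) → √2 |L(1/2, ψ)|` as `T → ∞`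

(with no hypothesis on the zeros), and we compute all moments of `Z_T` over the quadratic characters. Let `N` be even,
let `d` run over the squarefree integers of a fixed sign in a fixed class `a` modulo `N`, `gcd(a, N) = 1`, and let
`ε_p = ±1` be arbitrary signs for the primes `p ∤ N` (for instance `ε_p = (e/p)` with a fixed integer `e`); put
`ψ_d(p) = ε_p (d/p)` for `p ∤ N` and `ψ_d(p) = 0` for `p ∣ N`. For every REAL `k`

`lim_{X → ∞} average_{|d| ≤ X} Z_T(ψ_d)^k = M_k(T)`, and `M_k(T) ~ a_k κ₁^k κ₂^{k²} T^{k(k+1)/2}` as `T → ∞`,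

where `a_k` is the arithmetic factor of Conrey, Farmer, Keating, Rubinstein and Snaith (with the local factors at
`p ∣ N` removed) and the constants `κ₁, κ₂ > 0` depend only on `γ`. The conjecture is about the limits in the other
order: `average L(1/2, ψ_d)^k ~ a_k g_k (log X)^{k(k+1)/2}`; the exponent and the arithmetic factor agree.
-/

set_option autoImplicit false

open Filter Topology

namespace Pool.Agent.Results.MP_ea46f5_nt.MomentsOfProducts

/-- The weight `cos(γu) / Γ(1 + u)`. -/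
noncomputable def weight (γ u : ℝ) : ℝ := Real.cos (γ * u) / Real.Gamma (1 + u)

/-- `d` is squarefree, of the sign `s`, and `d ≡ a` modulo `N`. -/
def InClass (N : ℕ) (a s d : ℤ) : Prop := Squarefree d ∧ 0 < s * d ∧ (N : ℤ) ∣ d - a

/-- The members of the class with `|d| ≤ X`. -/
noncomputable def family (N : ℕ) (a s : ℤ) (X : ℕ) : Finset ℤ :=
  open Classical in (Finset.Icc (-(X : ℤ)) X).filter (InClass N a s)

/-- The average of a function over the members of the class with `|d| ≤ X`. -/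
noncomputable def average (N : ℕ) (a s : ℤ) (X : ℕ) (f : ℤ → ℝ) : ℝ :=
  (∑ d ∈ family N a s X, f d) / (family N a s X).card

/-- `ψ_d(p)`: `ε_p (d/p)` if `p ∤ N`, and `0` if `p ∣ N`. -/
noncomputable def value (N : ℕ) (ε : Nat.Primes → ℤ) (d : ℤ) (p : Nat.Primes) : ℤ :=
  open Classical in if (p : ℕ) ∣ N then 0 else ε p * jacobiSym d p

/-- `Z_T(ψ_d) = ∏_p (1 - ψ_d(p) p^{-1/2})^{-w(log p / T)}`. -/
noncomputable def Z (N : ℕ) (ε : Nat.Primes → ℤ) (γ T : ℝ) (d : ℤ) : ℝ :=
  ∏' p : Nat.Primes, (1 - (value N ε d p : ℝ) * (√((p : ℕ) : ℝ))⁻¹) ^ (-weight γ (Real.log (p : ℕ) / T))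

/-- The local factor `(((1 - p^{-1/2})^{-x} + (1 + p^{-1/2})^{-x}) / 2 + 1 / p) / (1 + 1 / p)` if `p ∤ N`, and `1` if
`p ∣ N`. -/
noncomputable def localMean (N : ℕ) (p : Nat.Primes) (x : ℝ) : ℝ :=
  open Classical in if (p : ℕ) ∣ N then 1 else
    (1 / 2 * ((1 - (√((p : ℕ) : ℝ))⁻¹) ^ (-x) + (1 + (√((p : ℕ) : ℝ))⁻¹) ^ (-x)) + 1 / (p : ℕ)) / (1 + 1 / (p : ℕ))

/-- `M_k(T)`. -/
noncomputable def M (N : ℕ) (γ k T : ℝ) : ℝ :=
  ∏' p : Nat.Primes, localMean N p (k * weight γ (Real.log (p : ℕ) / T))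

/-- The factor of `a_k` at `p`. -/
noncomputable def arithFactor (N : ℕ) (k : ℝ) (p : Nat.Primes) : ℝ :=
  (1 - (((p : ℕ) : ℝ))⁻¹) ^ (k * (k + 1) / 2) * localMean N p k

/-- The arithmetic factor `a_k`. -/
noncomputable def arith (N : ℕ) (k : ℝ) : ℝ := ∏' p : Nat.Primes, arithFactor N k p

open Pool.Agent.X278.AV

theorem sq_one {s : ℤ} (hs : s = 1 ∨ s = -1) : s * s = 1 := by
  rcases hs with h | h <;> rw [h] <;> norm_num

theorem s_inj {s : ℤ} (hs : s = 1 ∨ s = -1) : Function.Injective fun m : ℕ => s * (m : ℤ) := by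
  intro m n h
  have h1 : s * (s * (m : ℤ)) = s * (s * (n : ℤ)) := congrArg (fun z => s * z) h
  rw [← mul_assoc, ← mul_assoc, sq_one hs, one_mul, one_mul] at h1
  exact_mod_cast h1

theorem family_eq (N : ℕ) (a : ℤ) {s : ℤ} (hs : s = 1 ∨ s = -1) (X : ℕ) :
    family N a s X = (SF N ((s * a : ℤ) : ZMod N) X).map ⟨fun m : ℕ => s * (m : ℤ), s_inj hs⟩ := by
  classical
  ext d
  unfold family SF InClass
  simp only [Finset.mem_filter, Finset.mem_map, Finset.mem_Icc]
  constructor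
  · rintro ⟨⟨h1, h2⟩, h3, h4, h5⟩
    have h6 : ((s * d).toNat : ℤ) = s * d := Int.toNat_of_nonneg h4.le
    have h7 : s * ((s * d).toNat : ℤ) = d := by rw [h6, ← mul_assoc, sq_one hs, one_mul]
    refine ⟨(s * d).toNat, ?_, h7⟩
    refine ⟨⟨?_, ?_⟩, ?_, ?_⟩
    · have : (1 : ℤ) ≤ ((s * d).toNat : ℤ) := by rw [h6]; exact h4
      exact_mod_cast this
    · have : ((s * d).toNat : ℤ) ≤ X := by
        rw [h6]
        rcases hs with h | h <;> rw [h] <;> linarith
      exact_mod_cast this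
    · have h8 : Squarefree ((s * d).toNat : ℤ) := by
        rw [h6]
        refine (Squarefree.of_mul_left (n := s) ?_)
        have e1 : s * d * s = d := by rw [mul_comm s d, mul_assoc, sq_one hs, mul_one]
        rw [e1]
        exact h3
      exact Int.squarefree_natCast.1 h8
    · have h9 : (((s * d).toNat : ℕ) : ZMod N) = ((s * d : ℤ) : ZMod N) := by
        rw [← h6]
        push_cast
        rfl
      rw [h9]
      have h10 : ((d - a : ℤ) : ZMod N) = 0 := (ZMod.intCast_zmod_eq_zero_iff_dvd _ _).2 h5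
      push_cast at h10 ⊢
      rw [sub_eq_zero.1 h10]
  · rintro ⟨m, hm, rfl⟩
    obtain ⟨⟨h1, h2⟩, h3, h4⟩ := hm
    have h1' : (1 : ℤ) ≤ m := by exact_mod_cast h1
    have h2' : (m : ℤ) ≤ X := by exact_mod_cast h2
    show (-(X : ℤ) ≤ s * m ∧ s * m ≤ X) ∧ Squarefree (s * (m : ℤ)) ∧ 0 < s * (s * (m : ℤ)) ∧ (N : ℤ) ∣ s * m - a
    refine ⟨?_, ?_, ?_, ?_⟩
    · rcases hs with h | h <;> rw [h] <;> constructor <;> linarith
    · refine Squarefree.of_mul_left (n := s) ?_
      have e1 : s * (m : ℤ) * s = m := by rw [mul_comm s (m : ℤ), mul_assoc, sq_one hs, mul_one]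
      rw [e1]
      exact Int.squarefree_natCast.2 h3
    · rw [← mul_assoc, sq_one hs, one_mul]
      linarith
    · rw [← ZMod.intCast_zmod_eq_zero_iff_dvd]
      push_cast at h4 ⊢
      rw [h4, ← mul_assoc]
      have : ((s : ℤ) : ZMod N) * (s : ZMod N) = 1 := by
        have := congrArg (fun z : ℤ => (z : ZMod N)) (sq_one hs)
        push_cast at this
        exact this
      rw [this, one_mul, sub_self]

theorem unit_class {N : ℕ} {a s : ℤ} (ha : IsCoprime a (N : ℤ)) (hs : s = 1 ∨ s = -1) :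
    IsUnit ((s * a : ℤ) : ZMod N) := by
  push_cast
  refine IsUnit.mul ?_ ?_
  · rcases hs with h | h <;> rw [h] <;> simp
  · obtain ⟨x, y, h⟩ := ha
    have h1 := congrArg (fun z : ℤ => (z : ZMod N)) h
    push_cast at h1
    rw [ZMod.natCast_self, mul_zero, add_zero] at h1
    exact IsUnit.of_mul_eq_one_right _ h1

theorem value_eq (N : ℕ) (ε : Nat.Primes → ℤ) (d : ℤ) (p : Nat.Primes) : value N ε d p = bQ N ε d p := rfl

theorem Z_eq {N : ℕ} {ε : Nat.Primes → ℤ} (hε : ∀ p, ε p = 1 ∨ ε p = -1) (γ : ℝ) {T : ℝ} (hT : 0 < T) (d : ℤ) :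
    Z N ε γ T d = Real.exp (∑' p : Nat.Primes, wr γ (Real.log (p : ℕ) / T) * Yq p (bQ N ε d p)) := by
  have h1 := (logZ_sum (N := N) hε d γ hT).of_abs
  have h2 : ∀ p : Nat.Primes, (1 - (value N ε d p : ℝ) * (√((p : ℕ) : ℝ))⁻¹) ^ (-weight γ (Real.log (p : ℕ) / T)) =
      Real.exp (wr γ (Real.log (p : ℕ) / T) * Yq p (bQ N ε d p)) := by
    intro p
    obtain ⟨h3, -⟩ := Yq_bd p (bQ_bd (N := N) hε d p)
    rw [value_eq, Real.rpow_def_of_pos h3]
    congr 1
    unfold Yq weight wr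
    ring
  have h3 : HasProd (fun p : Nat.Primes => Real.exp (wr γ (Real.log (p : ℕ) / T) * Yq p (bQ N ε d p)))
      (Real.exp (∑' p : Nat.Primes, wr γ (Real.log (p : ℕ) / T) * Yq p (bQ N ε d p))) := by
    refine Real.hasProd_of_hasSum_log (fun p => Real.exp_pos _) ?_
    simp only [Real.log_exp]
    exact h1.hasSum
  unfold Z
  rw [tprod_congr h2]
  exact h3.tprod_eq

/-- **Moments of smooth Euler products over quadratic characters.** -/
theorem result (γ : ℝ) (hγ : Real.pi / 2 < γ) : ∃ κ₁ κ₂ l : ℝ, 0 < κ₁ ∧ 0 < κ₂ ∧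
    ∀ N : ℕ, N ≠ 0 → 2 ∣ N → ∀ a s : ℤ, IsCoprime a (N : ℤ) → (s = 1 ∨ s = -1) →
    ∀ ε : Nat.Primes → ℤ, (∀ p, ε p = 1 ∨ ε p = -1) →
      -- absolute convergence of the products
      (∀ (d : ℤ) (T : ℝ), 0 < T → Summable fun p : Nat.Primes =>
        |weight γ (Real.log (p : ℕ) / T) * Real.log (1 - (value N ε d p : ℝ) * (√((p : ℕ) : ℝ))⁻¹)|) ∧
      -- A. the moments for fixed `T`
      (∀ k T : ℝ, 0 < T →
        Tendsto (fun X : ℕ => average N a s X fun d => Z N ε γ T d ^ k) atTop (𝓝 (M N γ k T))) ∧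
      -- B. their asymptotics
      (∀ k : ℝ, (Summable fun p : Nat.Primes => Real.log (arithFactor N k p)) ∧ 0 < arith N k ∧
        Tendsto (fun T : ℝ => M N γ k T / T ^ (k * (k + 1) / 2)) atTop (𝓝 (arith N k * κ₁ ^ k * κ₂ ^ (k ^ 2)))) ∧
      -- C. a single character
      (∀ d : ℤ, d ≠ 0 → ∀ (q : ℕ) [NeZero q] (ψ : DirichletCharacter ℂ q),
        (∀ p : Nat.Primes, ψ ((p : ℕ) : ZMod q) = ((value N ε d p : ℤ) : ℂ)) →
        (ψ.LFunction (1 / 2) ≠ 0 →
          Tendsto (fun T : ℝ => Z N ε γ T d) atTop (𝓝 (√2 * ‖ψ.LFunction (1 / 2)‖))) ∧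
        ∃ m : ℤ, meromorphicOrderAt ψ.LFunction (1 / 2) = m ∧
          Tendsto (fun T : ℝ => T ^ m * Z N ε γ T d) atTop
            (𝓝 (√2 * Real.exp (m * l) * ‖meromorphicTrailingCoeffAt ψ.LFunction (1 / 2)‖))) := by
  classical
  obtain ⟨κ₁, κ₂, hκ₁, hκ₂, hmain⟩ := prod_asymp γ (1 / 2) (1 / 2)
  refine ⟨κ₁, κ₂, (Pool.Agent.W187.UR.Lam γ).re, hκ₁, hκ₂, fun N hN hN2 a s ha hs ε hε => ⟨?_, ?_, ?_, ?_⟩⟩
  · intro d T hT
    refine (logZ_sum (N := N) hε d γ hT).congr fun p => ?_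
    rw [value_eq]
    unfold Yq weight wr
    rw [mul_neg, abs_neg]
  · intro k T hT
    have : NeZero N := ⟨hN⟩
    have h1 := mean_pow hN2 (unit_class ha hs) hε hs γ k hT
    have h2 : (∏' p : Nat.Primes, open Classical in if (p : ℕ) ∣ N then 1 else
        phQ p (k * wr γ (Real.log (p : ℕ) / T))) = M N γ k T := rfl
    rw [h2] at h1
    refine h1.congr fun X => ?_
    unfold mean average
    rw [family_eq N a hs, Finset.card_map, Finset.sum_map]
    congr 1
    refine Finset.sum_congr rfl fun m _ => ?_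
    show Real.exp (k * ∑' p : Nat.Primes, wr γ (Real.log (p : ℕ) / T) * Yq p (bQ N ε (s * m) p)) =
      Z N ε γ T (s * m) ^ k
    rw [Z_eq hε γ hT, ← Real.exp_mul, mul_comm k]
  · intro k
    have hpos : ∀ (p : Nat.Primes) (x : ℝ), 0 < localMean N p x := by
      intro p x
      unfold localMean
      split_ifs with h
      · exact one_pos
      · exact phQ_pos p x
    have hcont : ∀ p : Nat.Primes, Continuous (localMean N p) := by
      intro p
      unfold localMean
      by_cases h : (p : ℕ) ∣ N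
      · simp only [if_pos h]
        exact continuous_const
      · simp only [if_neg h]
        exact phQ_cont p
    have hexp : ∀ K : ℝ, ∃ C : ℝ, ∀ (p : Nat.Primes) (x : ℝ), |x| ≤ K →
        |Real.log (localMean N p x) - (1 / 2 * x + 1 / 2 * x ^ 2) / (p : ℕ)| ≤ C / (√((p : ℕ) : ℝ) * (p : ℕ)) := by
      intro K
      obtain ⟨C, hC⟩ := phQ_exp K
      refine ⟨|C| + (|K| + K ^ 2) * √(N : ℝ), fun p x hx => ?_⟩
      have hp0 : (0 : ℝ) < (p : ℕ) := by exact_mod_cast p.2.pos
      have hr0 : 0 < √((p : ℕ) : ℝ) := Real.sqrt_pos.2 hp0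
      unfold localMean
      by_cases h : (p : ℕ) ∣ N
      · rw [if_pos h, Real.log_one, zero_sub, abs_neg, abs_div, abs_of_pos hp0]
        have h1 : |1 / 2 * x + 1 / 2 * x ^ 2| ≤ |K| + K ^ 2 := by
          have hK : |x| ≤ |K| := hx.trans (le_abs_self K)
          have hx2 : x ^ 2 ≤ K ^ 2 := sq_le_sq.2 hK
          refine (abs_add_le _ _).trans ?_
          rw [abs_mul, abs_mul, abs_of_pos (by norm_num : (0 : ℝ) < 1 / 2), abs_of_nonneg (sq_nonneg x)]
          nlinarith [abs_nonneg x, sq_nonneg x]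
        have h2 : √((p : ℕ) : ℝ) ≤ √(N : ℝ) := by
          apply Real.sqrt_le_sqrt
          exact_mod_cast Nat.le_of_dvd (Nat.pos_of_ne_zero hN) h
        rw [div_le_div_iff₀ hp0 (by positivity)]
        have h3 : 0 ≤ |K| + K ^ 2 := by positivity
        calc |1 / 2 * x + 1 / 2 * x ^ 2| * (√((p : ℕ) : ℝ) * (p : ℕ)) ≤
            (|K| + K ^ 2) * (√(N : ℝ) * (p : ℕ)) := by gcongr
          _ ≤ (|C| + (|K| + K ^ 2) * √(N : ℝ)) * (p : ℕ) := by
            have : 0 ≤ |C| * ((p : ℕ) : ℝ) := by positivity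
            nlinarith
      · rw [if_neg h]
        have h1 := hC p x hx
        refine h1.trans ?_
        gcongr
        have h2 := le_abs_self C
        have h3 : 0 ≤ (|K| + K ^ 2) * √(N : ℝ) := by positivity
        linarith
    obtain ⟨h1, -, h3⟩ := hmain (localMean N) hpos hcont hexp k
    have hp1 : ∀ p : Nat.Primes, 0 < 1 - (((p : ℕ) : ℝ))⁻¹ := fun p => by
      have := inv_half p
      linarith
    have hexpo : (1 / 2 * k + 1 / 2 * k ^ 2 : ℝ) = k * (k + 1) / 2 := by ring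
    rw [hexpo] at h1 h3
    have e1 : ∀ p : Nat.Primes, Real.log (arithFactor N k p) =
        k * (k + 1) / 2 * Real.log (1 - (((p : ℕ) : ℝ))⁻¹) + Real.log (localMean N p k) := by
      intro p
      unfold arithFactor
      rw [Real.log_mul (Real.rpow_pos_of_pos (hp1 p) _).ne' (hpos p k).ne', Real.log_rpow (hp1 p)]
    have hs1 : Summable fun p : Nat.Primes => Real.log (arithFactor N k p) := h1.congr fun p => (e1 p).symm
    refine ⟨hs1, ?_, h3⟩
    have e2 : Real.exp (∑' p, Real.log (arithFactor N k p)) = arith N k :=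
      Real.rexp_tsum_eq_tprod (f := arithFactor N k)
        (fun p => mul_pos (Real.rpow_pos_of_pos (hp1 p) _) (hpos p k)) hs1
    rw [← e2]
    exact Real.exp_pos _
  · intro d hd q _ ψ hψ
    obtain ⟨m, h1, h2⟩ := one_char ψ hN hε hd (fun p => hψ p) hγ
    have h3 : Tendsto (fun T : ℝ => T ^ m * Z N ε γ T d) atTop
        (𝓝 (√2 * Real.exp (m * (Pool.Agent.W187.UR.Lam γ).re) * ‖meromorphicTrailingCoeffAt ψ.LFunction (1 / 2)‖)) := by
      refine h2.congr' ?_
      filter_upwards [eventually_gt_atTop (0 : ℝ)] with T hT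
      rw [Z_eq hε γ hT]
    refine ⟨fun hne => ?_, m, h1, h3⟩
    have han : AnalyticAt ℂ ψ.LFunction (1 / 2) := by
      rw [Complex.analyticAt_iff_eventually_differentiableAt]
      have h4 : (1 / 2 : ℂ) ≠ 1 := by norm_num
      filter_upwards [isOpen_ne.mem_nhds h4] with z hz
      exact DirichletCharacter.differentiableAt_LFunction ψ z (Or.inl hz)
    have hm0 : m = 0 := by
      rw [han.meromorphicOrderAt_eq, han.analyticOrderAt_eq_zero.2 hne] at h1
      simpa using h1.symm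
    rw [hm0, han.meromorphicTrailingCoeffAt_of_ne_zero hne] at h3
    simpa using h3

end Pool.Agent.Results.MP_ea46f5_nt.MomentsOfProducts
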