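import Pool.Agent.X110.QG9
import Pool.Agent.X110.QG4

/-!
# Moments of quadratic Dirichlet L-functions near the central point: all complex orders

For odd squarefree `d` and `ε = ±1` let `χ` be the primitive real character with `χ(n) = (8εd|n)` (conductor `8d`) and
`L(σ, χ)` its L-function. For complex `z` let `moment δ V X z` be the mean value over the odd squarefree `d` in `(X, 2X]`
of `L(1/2 + δ, χ)^z`, restricted to the `d` with `1/V < L(1/2 + δ, χ) < V`.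

(1) For every `r` there is `c > 0` such that for every `B`, uniformly in `|z| ≤ r`, in
`C loglog X / log X ≤ δ ≤ 1/16` and in `(log X)^A ≤ V ≤ X^(cδ)`,
`moment δ V X z = ∑_{n odd} d_z(n^2) h(n) n^(-1-2δ) + O((log X)^(-B))`, with `d_z` the coefficients of `ζ^z` and
`h(n) = ∏_{p | n} p/(p+1)`; the omitted `d` have proportion at most `(log X)^(-B)`.

(2) If `δ = δ(X) → 0` and `log V / loglog X → ∞`, `log V / (δ log X) → 0`, then
`(2δ)^(z(z+1)/2) moment δ V X z → a(z)` for every complex `z`, also when `z` varies with `X` in a convergent way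
(so locally uniformly), where `a(z) = ∏_p (1 - 1/p)^(z(z+1)/2) b_p(z)`, `b_2 = 1` and
`b_p(z) = (1 + 1/p)^(-1) (1/p + ∑_m (z(z+1)⋯(z+2m-1)/(2m)!) p^(-m))` for odd `p`.
The product converges for all complex `z`; for real `z` it is a positive real number.
-/

set_option autoImplicit false

namespace Pool.Agent.Results.MP_ea46f5_nt.NearCentralMoments

open Finset Filter Topology

noncomputable section

/-- The odd squarefree `d` with `X < d ≤ 2X`. -/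
def fam (X : ℕ) : Finset ℕ := (Ioc X (2 * X)).filter (fun d => Odd d ∧ Squarefree d)

/-- `Lv d σ = L(σ, χ)` for odd squarefree `d` and real `σ > 0`, where `χ` is the primitive real character mod `8d` with
`χ(n) = (8εd|n)` for odd `n`. -/
def IsL (ε : ℤ) (Lv : ℕ → ℝ → ℝ) : Prop :=
  ∀ d : ℕ, Odd d → Squarefree d → ∃ (_ : NeZero (8 * d)) (χ : DirichletCharacter ℂ (8 * d)),
    χ.IsPrimitive ∧ χ ^ 2 = 1 ∧ (∀ n : ℕ, Odd n → χ (n : ZMod (8 * d)) = ((jacobiSym (8 * ε * d) n : ℤ) : ℂ)) ∧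
      ∀ σ : ℝ, 0 < σ → DirichletCharacter.LFunction χ (σ : ℂ) = ((Lv d σ : ℝ) : ℂ)

open Classical in
/-- The `d` of the family with `1/V < L(1/2 + δ, χ) < V`. -/
def good (Lv : ℕ → ℝ → ℝ) (δ V : ℝ) (X : ℕ) : Finset ℕ :=
  (fam X).filter (fun d => V⁻¹ < Lv d (1 / 2 + δ) ∧ Lv d (1 / 2 + δ) < V)

/-- The mean value of `L(1/2 + δ, χ)^z` over the family, restricted to `good`. -/
def moment (Lv : ℕ → ℝ → ℝ) (δ V : ℝ) (X : ℕ) (z : ℂ) : ℂ :=
  (∑ d ∈ good Lv δ V X, ((Lv d (1 / 2 + δ) : ℝ) : ℂ) ^ z) / ((#(fam X) : ℝ) : ℂ)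

/-- `z (z + 1) ⋯ (z + m - 1) / m!`. -/
def bin (z : ℂ) (m : ℕ) : ℂ := ∏ i ∈ range m, (z + i) / ((i : ℂ) + 1)

/-- The coefficient `d_z(n)` of `n^(-s)` in `ζ(s)^z`. -/
def dk (z : ℂ) (n : ℕ) : ℂ := if n = 0 then 0 else n.factorization.prod fun _ e => bin z e

/-- `h(n) = ∏_{p | n} p/(p + 1)`. -/
def h (n : ℕ) : ℝ := ∏ p ∈ n.primeFactors, (p : ℝ) / ((p : ℝ) + 1)

/-- `∑_{n odd} d_z(n^2) h(n) n^(-1-2δ)`. -/
def diag (δ : ℝ) (z : ℂ) : ℂ :=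
  ∑' n : ℕ, if Odd n then dk z (n ^ 2) * ((h n * (n : ℝ) ^ (-1 - 2 * δ) : ℝ) : ℂ) else 0

/-- The factor of `a(z)` at the prime `p`. -/
def factor (z : ℂ) (p : ℕ) : ℂ :=
  ((1 - 1 / (p : ℝ) : ℝ) : ℂ) ^ (z * (z + 1) / 2) *
    (if p = 2 then 1 else (1 + 1 / (p : ℂ))⁻¹ * (1 / (p : ℂ) + ∑' m : ℕ, bin z (2 * m) * (1 / (p : ℂ)) ^ m))

/-- The arithmetic factor `a(z)`. -/
def arith (z : ℂ) : ℂ := ∏' p : Nat.Primes, factor z p

/-- Moments of complex orders near the central point. -/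
theorem result (ε : ℤ) (hε : ε = 1 ∨ ε = -1) :
    ∃ Lv : ℕ → ℝ → ℝ, IsL ε Lv ∧
    (∀ r : ℝ, 0 ≤ r → ∃ c : ℝ, 0 < c ∧ ∀ B : ℕ, ∃ (A : ℕ) (C : ℝ) (X₀ : ℕ), 0 < C ∧ ∀ X : ℕ, X₀ ≤ X →
      ∀ δ : ℝ, C * Real.log (Real.log X) / Real.log X ≤ δ → δ ≤ 1 / 16 →
      ∀ V : ℝ, Real.log X ^ A ≤ V → V ≤ (X : ℝ) ^ (c * δ) →
      (#(fam X \ good Lv δ V X) : ℝ) ≤ (Real.log X ^ B)⁻¹ * #(fam X) ∧
      ∀ z : ℂ, ‖z‖ ≤ r → ‖moment Lv δ V X z - diag δ z‖ ≤ (Real.log X ^ B)⁻¹) ∧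
    (∀ δ V : ℕ → ℝ, Tendsto δ atTop (𝓝 0) → (∀ᶠ X in atTop, 0 < δ X) → (∀ᶠ X in atTop, 1 ≤ V X) →
      Tendsto (fun X : ℕ => Real.log (V X) / Real.log (Real.log X)) atTop atTop →
      Tendsto (fun X : ℕ => Real.log (V X) / (δ X * Real.log X)) atTop (𝓝 0) → ∀ z₀ : ℂ,
      Tendsto (fun q : ℂ × ℕ => ((2 * δ q.2 : ℝ) : ℂ) ^ (q.1 * (q.1 + 1) / 2) * moment Lv (δ q.2) (V q.2) q.2 q.1)
        (𝓝 z₀ ×ˢ atTop) (𝓝 (arith z₀))) ∧
    (∀ z : ℂ, Multipliable fun p : Nat.Primes => factor z p) ∧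
    ∀ β : ℝ, ∃ a : ℝ, 0 < a ∧ arith β = (a : ℂ) := by
  have hHyp := Pool.Agent.X110.QF.hyp8 hε
  set Lv := Pool.Agent.H306R2.RG.LLg (Pool.Agent.H306R2.RG.F8 ε) with hLv
  have hfam : Pool.Agent.H306R2.RG.Fam (Pool.Agent.H306R2.RG.F8 ε) := ⟨ε, hε, Or.inl rfl⟩
  have hCG := Pool.Agent.H306R2.RG.LnkC.CGF _ hfam
  have hdiag : ∀ δ z, diag δ z = Pool.Agent.X110.QF.SQC z δ := fun δ z => rfl
  have hmom : ∀ δ V X z, moment Lv δ V X z = Pool.Agent.X110.QF.MQ V X (fun d => Lv d (1 / 2 + δ)) z := by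
    intro δ V X z
    unfold moment good Pool.Agent.X110.QF.MQ
    rw [sum_filter]
    rfl
  have hbad : ∀ δ V X, (#(fam X \ good Lv δ V X) : ℝ) = ∑ d ∈ fam X, Pool.Agent.X110.QF.ib V (Lv d (1 / 2 + δ)) := by
    intro δ V X
    classical
    have h1 : fam X \ good Lv δ V X = (fam X).filter (fun d => ¬ (V⁻¹ < Lv d (1 / 2 + δ) ∧ Lv d (1 / 2 + δ) < V)) := by
      ext d
      unfold good
      simp only [Finset.mem_sdiff, Finset.mem_filter]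
      tauto
    rw [h1, card_filter, Nat.cast_sum]
    refine sum_congr rfl fun d _ => ?_
    unfold Pool.Agent.X110.QF.ib
    split_ifs <;> simp_all
  have hfactor : ∀ (z : ℂ) (p : Nat.Primes), factor z p = Pool.Agent.X110.QF.Gq z p (1 / ((p:ℕ):ℝ)) := by
    intro z p
    have hp0 : ((p:ℕ):ℂ) ≠ 0 := by exact_mod_cast p.2.ne_zero
    have hp1 : ((p:ℕ):ℂ) + 1 ≠ 0 := by exact_mod_cast (by omega : (p:ℕ) + 1 ≠ 0)
    unfold factor Pool.Agent.X110.QF.Gq Pool.Agent.X110.QF.Fq Pool.Agent.X110.QF.ww Pool.Agent.X110.QF.T2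
    congr 1
    split_ifs with h2
    · rfl
    · have e1 : ∑' m : ℕ, Pool.Agent.X110.LT.lcC z (2 * m) * (((1 / ((p:ℕ):ℝ) : ℝ)) : ℂ) ^ m =
          ∑' m : ℕ, bin z (2 * m) * (1 / ((p:ℕ):ℂ)) ^ m := by
        refine tsum_congr fun m => ?_
        push_cast
        rfl
      rw [e1]
      set S := ∑' m : ℕ, bin z (2 * m) * (1 / ((p:ℕ):ℂ)) ^ m
      push_cast
      field_simp
      ring
  have harith : ∀ z, arith z = Pool.Agent.X110.QF.aQ z := by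
    intro z
    unfold arith Pool.Agent.X110.QF.aQ
    exact tprod_congr fun p => hfactor z p
  refine ⟨Lv, ?_, ?_, ?_, ?_, ?_⟩
  · intro d hd hsf
    obtain ⟨hN, χ, h1, h2, -, h3, h4⟩ := hCG.chi d hd hsf
    refine ⟨hN, χ, h1, h2, fun n hn => ?_, h4⟩
    have hn0 : n ≠ 0 := by rintro rfl; simp at hn
    have h5 := h3 n hn0
    have h6 : Pool.Agent.H306R2.RG.cf (Pool.Agent.H306R2.RG.F8 ε) d n = ((jacobiSym (8 * ε * d) n : ℤ) : ℝ) := by
      have hf : n.factorization 2 = 0 := Nat.factorization_eq_zero_of_not_dvd hn.not_two_dvd_nat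
      unfold Pool.Agent.H306R2.RG.cf Pool.Agent.H306R2.RG.jo
      rw [hf, pow_zero, pow_zero, Nat.div_one, one_mul, if_pos hn]
      unfold Pool.Agent.H306R2.RZ.js
      have e1 : (8 * ε * (d:ℤ)) = 2 ^ 2 * ((Pool.Agent.H306R2.RG.F8 ε).e * (d:ℤ)) := by
        show (8 * ε * (d:ℤ)) = 2 ^ 2 * (2 * ε * (d:ℤ))
        ring
      have e2 : jacobiSym (8 * ε * (d:ℤ)) n = jacobiSym ((Pool.Agent.H306R2.RG.F8 ε).e * (d:ℤ)) n := by
        have h8 : Nat.Coprime 2 n := Nat.coprime_two_left.mpr hn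
        rw [e1, jacobiSym.mul_left (2 ^ 2), jacobiSym.pow_left, jacobiSym.sq_one, one_mul]
        simpa [Int.gcd] using h8
      rw [e2]
    have h7 : ((Pool.Agent.H306R2.RG.cf (Pool.Agent.H306R2.RG.F8 ε) d n : ℝ) : ℂ) =
        ((jacobiSym (8 * ε * d) n : ℤ) : ℂ) := by
      rw [h6]
      push_cast
      rfl
    exact h5.trans h7
  · intro r hr
    obtain ⟨c, hc, H⟩ := Pool.Agent.X110.QF.cmom hε hHyp hr
    refine ⟨c, hc, fun B => ?_⟩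
    obtain ⟨A, C, X0, hC, H2⟩ := H B
    refine ⟨A, C, X0, hC, fun X hX δ hδ hδ1 V hV1 hV2 => ?_⟩
    obtain ⟨hL1, hδ0, h2δ, H3⟩ := H2 X hX δ hδ hδ1
    obtain ⟨g1, g2⟩ := H3 V hV1 hV2
    refine ⟨?_, fun z hz => ?_⟩
    · rw [hbad, mul_comm]
      exact g1
    · rw [hmom, hdiag]
      exact g2 z hz
  · intro δ V h1 h2 h3 h4 h5 z₀
    have hA : Pool.Agent.X110.QF.AdmN δ V := ⟨h1, h3, h2, h4, h5⟩
    rw [harith]
    refine (Pool.Agent.X110.QF.modGaussQ hε hHyp hA z₀).congr fun q => ?_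
    rw [hmom]
    rfl
  · intro z
    refine (Pool.Agent.X110.QF.Gq_mult z).congr fun p => ?_
    exact (hfactor z p).symm
  · intro β
    exact ⟨Pool.Agent.X110.QF.aQR β, Pool.Agent.X110.QF.aQR_pos β, by rw [harith, Pool.Agent.X110.QF.aQ_ofReal]⟩

end

end Pool.Agent.Results.MP_ea46f5_nt.NearCentralMoments
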