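import Pool.Agent.X110.SD5
import Pool.Agent.X110.QG4

/-!
# The distribution of quadratic Dirichlet L-functions near the central point, in the whole range of large deviations

For odd squarefree `d` and `ε = ±1` let `χ` be the primitive real character with `χ(n) = (8εd|n)` (conductor `8d`).
Let `δ = δ(X) > 0` tend to `0` with `δ log X / loglog X → ∞`, let `ell = log (1/(2δ))` and
`size = (2δ)^(1/2) L(1/2 + δ, χ)`. For a property of `d`, `prop X` is the proportion of the odd squarefree `d` in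
`(X, 2X]` that have it; `Q(u) = (2π)^(-1/2) ∫_u^∞ e^(-t²/2) dt`.

(1) If `x = x(X) ≥ 0` and `x / ell → b`, then `prop (size ≥ e^x) / Q(x / ell^(1/2)) → a(b)` and
`prop (size ≤ e^(-x)) / Q(x / ell^(1/2)) → a(-b)`. For `x` of order `ell^(1/2)` this is the central limit theorem
(`b = 0`, `a(0) = 1`); for `x` of order `ell` the deviation from the Gaussian law is the arithmetic factor `a`.

(2) If `β = β(X) → b` (any real `b`) and `0 < A ≤ B`, then
`(2π ell)^(1/2) (2δ)^(-β²/2) prop (A ≤ (2δ)^β size ≤ B) → a(b) ∫_A^B y^(-b-1) dy` (local law at every height).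

Here `a(b) = ∏_p (1 - 1/p)^(b(b+1)/2) b_p`, `b_2 = 1` and
`b_p = (1 + 1/p)^(-1) (1/p + ∑_m (b(b+1)⋯(b+2m-1)/(2m)!) p^(-m))` for odd `p`: a convergent product, positive for
every real `b`.
-/

set_option autoImplicit false

namespace Pool.Agent.Results.MP_ea46f5_nt.SharpLargeValues

open Finset Filter Topology MeasureTheory

noncomputable section

/-- The odd squarefree `d` with `X < d ≤ 2X`. -/
def fam (X : ℕ) : Finset ℕ := (Ioc X (2 * X)).filter (fun d => Odd d ∧ Squarefree d)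

/-- `Lv d σ = L(σ, χ)` for odd squarefree `d` and real `σ > 0`, where `χ` is the primitive real character mod `8d` with
`χ(n) = (8εd|n)` for odd `n`. -/
def IsL (ε : ℤ) (Lv : ℕ → ℝ → ℝ) : Prop :=
  ∀ d : ℕ, Odd d → Squarefree d → ∃ (_ : NeZero (8 * d)) (χ : DirichletCharacter ℂ (8 * d)),
    χ.IsPrimitive ∧ χ ^ 2 = 1 ∧ (∀ n : ℕ, Odd n → χ (n : ZMod (8 * d)) = ((jacobiSym (8 * ε * d) n : ℤ) : ℂ)) ∧
      ∀ σ : ℝ, 0 < σ → DirichletCharacter.LFunction χ (σ : ℂ) = ((Lv d σ : ℝ) : ℂ)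

open Classical in
/-- The proportion of the `d` of the family with the property `P`. -/
def prop (X : ℕ) (P : ℕ → Prop) : ℝ := (#((fam X).filter P) : ℝ) / (#(fam X) : ℝ)

/-- The normalised value `(2δ)^(1/2) L(1/2 + δ, χ)`. -/
def size (Lv : ℕ → ℝ → ℝ) (δ : ℝ) (d : ℕ) : ℝ := Real.sqrt (2 * δ) * Lv d (1 / 2 + δ)

/-- `log (1/(2δ))`. -/
def ell (δ : ℝ) : ℝ := Real.log (1 / (2 * δ))

/-- The tail of the normal distribution. -/
def Q (u : ℝ) : ℝ := (Real.sqrt (2 * Real.pi))⁻¹ * ∫ t in Set.Ioi u, Real.exp (-t ^ 2 / 2)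

/-- `b (b + 1) ⋯ (b + m - 1) / m!`. -/
def bin (b : ℝ) (m : ℕ) : ℝ := ∏ i ∈ range m, (b + i) / ((i : ℝ) + 1)

/-- The factor of `a(b)` at the prime `p`. -/
def factor (b : ℝ) (p : ℕ) : ℝ :=
  (1 - 1 / (p : ℝ)) ^ (b * (b + 1) / 2) *
    (if p = 2 then 1 else (1 + 1 / (p : ℝ))⁻¹ * (1 / (p : ℝ) + ∑' m : ℕ, bin b (2 * m) * (1 / (p : ℝ)) ^ m))

/-- The arithmetic factor `a(b)`. -/
def arith (b : ℝ) : ℝ := ∏' p : Nat.Primes, factor b p

/-- The distribution near the central point. -/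
theorem result (ε : ℤ) (hε : ε = 1 ∨ ε = -1) :
    ∃ Lv : ℕ → ℝ → ℝ, IsL ε Lv ∧
    (∀ δ : ℕ → ℝ, Tendsto δ atTop (𝓝 0) → (∀ᶠ X in atTop, 0 < δ X) →
      Tendsto (fun X : ℕ => δ X * Real.log X / Real.log (Real.log X)) atTop atTop →
      (∀ (x : ℕ → ℝ) (b : ℝ), (∀ᶠ X in atTop, 0 ≤ x X) → Tendsto (fun X => x X / ell (δ X)) atTop (𝓝 b) →
        Tendsto (fun X => prop X (fun d => Real.exp (x X) ≤ size Lv (δ X) d) / Q (x X / Real.sqrt (ell (δ X))))
          atTop (𝓝 (arith b)) ∧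
        Tendsto (fun X => prop X (fun d => size Lv (δ X) d ≤ Real.exp (-x X)) / Q (x X / Real.sqrt (ell (δ X))))
          atTop (𝓝 (arith (-b)))) ∧
      ∀ (β : ℕ → ℝ) (b : ℝ), Tendsto β atTop (𝓝 b) → ∀ A B : ℝ, 0 < A → A ≤ B →
        Tendsto (fun X => Real.sqrt (2 * Real.pi * ell (δ X)) * (2 * δ X) ^ (-β X ^ 2 / 2) *
          prop X (fun d => A ≤ (2 * δ X) ^ β X * size Lv (δ X) d ∧ (2 * δ X) ^ β X * size Lv (δ X) d ≤ B))
          atTop (𝓝 (arith b * ∫ y in A..B, y ^ (-b - 1)))) ∧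
    (∀ b : ℝ, (Multipliable fun p : Nat.Primes => factor b p) ∧ 0 < arith b) ∧ arith 0 = 1 := by
  have hHyp := Pool.Agent.X110.QF.hyp8 hε
  set Lv := Pool.Agent.H306R2.RG.LLg (Pool.Agent.H306R2.RG.F8 ε) with hLv
  have hfam : Pool.Agent.H306R2.RG.Fam (Pool.Agent.H306R2.RG.F8 ε) := ⟨ε, hε, Or.inl rfl⟩
  have hCG := Pool.Agent.H306R2.RG.LnkC.CGF _ hfam
  have hfactor : ∀ (b : ℝ) (p : Nat.Primes), factor b p = Pool.Agent.X110.QF.gQ b p := by
    intro b p
    have hp0 : ((p:ℕ):ℝ) ≠ 0 := by exact_mod_cast p.2.ne_zero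
    have hp1 : ((p:ℕ):ℝ) + 1 ≠ 0 := by exact_mod_cast (by omega : (p:ℕ) + 1 ≠ 0)
    unfold factor Pool.Agent.X110.QF.gQ
    congr 1
    split_ifs with h2
    · rfl
    · show (1 + 1 / ((p:ℕ):ℝ))⁻¹ * (1 / ((p:ℕ):ℝ) + ∑' m : ℕ, bin b (2 * m) * (1 / ((p:ℕ):ℝ)) ^ m) =
        1 + ((p:ℕ):ℝ) / (((p:ℕ):ℝ) + 1) * ((∑' m : ℕ, bin b (2 * m) * (1 / ((p:ℕ):ℝ)) ^ m) - 1)
      set S := ∑' m : ℕ, bin b (2 * m) * (1 / ((p:ℕ):ℝ)) ^ m
      field_simp
      ring
  have harith : ∀ b, arith b = Pool.Agent.X110.QF.aQR b := by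
    intro b
    unfold arith Pool.Agent.X110.QF.aQR
    exact tprod_congr fun p => hfactor b p
  refine ⟨Lv, ?_, ?_, ?_, ?_⟩
  · intro d hd hsf
    obtain ⟨hN, χ, h1, h2, -, h3, h4⟩ := hCG.chi d hd hsf
    refine ⟨hN, χ, h1, h2, fun n hn => ?_, h4⟩
    have hn0 : n ≠ 0 := by rintro rfl; simp at hn
    have h5 := h3 n hn0
    have h6 : Pool.Agent.H306R2.RG.cf (Pool.Agent.H306R2.RG.F8 ε) d n = ((jacobiSym (8 * ε * d) n : ℤ) : ℝ) := by
      have hf : n.factorization 2 = 0 := Nat.factorization_eq_zero_of_not_dvd hn.not_two_dvd_nat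
      unfold Pool.Agent.H306R2.RG.cf Pool.Agent.H306R2.RG.jo
      rw [hf, pow_zero, pow_zero, Nat.div_one, one_mul, if_pos hn]
      unfold Pool.Agent.H306R2.RZ.js
      have e1 : (8 * ε * (d:ℤ)) = 2 ^ 2 * ((Pool.Agent.H306R2.RG.F8 ε).e * (d:ℤ)) := by
        show (8 * ε * (d:ℤ)) = 2 ^ 2 * (2 * ε * (d:ℤ))
        ring
      have e2 : jacobiSym (8 * ε * (d:ℤ)) n = jacobiSym ((Pool.Agent.H306R2.RG.F8 ε).e * (d:ℤ)) n := by
        have h8 : Nat.Coprime 2 n := Nat.coprime_two_left.mpr hn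
        rw [e1, jacobiSym.mul_left (2 ^ 2), jacobiSym.pow_left, jacobiSym.sq_one, one_mul]
        simpa [Int.gcd] using h8
      rw [e2]
    have h7 : ((Pool.Agent.H306R2.RG.cf (Pool.Agent.H306R2.RG.F8 ε) d n : ℝ) : ℂ) =
        ((jacobiSym (8 * ε * d) n : ℤ) : ℂ) := by
      rw [h6]
      push_cast
      rfl
    exact h5.trans h7
  · intro δ h1 h2 h3
    refine ⟨fun x b hx hb => ⟨?_, ?_⟩, fun β b hβ A B hA hAB => ?_⟩
    · rw [harith]
      exact Pool.Agent.X110.SD.large hε hHyp h1 h2 h3 hx hb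
    · rw [harith]
      exact Pool.Agent.X110.SD.small hε hHyp h1 h2 h3 hx hb
    · rw [harith]
      refine (Pool.Agent.X110.SD.local' hε hHyp h1 h2 h3 hβ hA hAB).congr' ?_
      filter_upwards [h2] with X g2
      have h22 : 0 < 2 * δ X := by linarith
      have e1 : ∀ d, (2 * δ X) ^ (1 / 2 + β X) * Lv d (1 / 2 + δ X) = (2 * δ X) ^ β X * size Lv (δ X) d := by
        intro d
        unfold size
        rw [Real.sqrt_eq_rpow, Real.rpow_add h22]
        ring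
      have e2 : (fun d => A ≤ (2 * δ X) ^ (1 / 2 + β X) * Lv d (1 / 2 + δ X) ∧
          (2 * δ X) ^ (1 / 2 + β X) * Lv d (1 / 2 + δ X) ≤ B) =
          fun d => A ≤ (2 * δ X) ^ β X * size Lv (δ X) d ∧ (2 * δ X) ^ β X * size Lv (δ X) d ≤ B := by
        funext d
        rw [e1]
      rw [e2]
      rfl
  · intro b
    refine ⟨?_, by rw [harith]; exact Pool.Agent.X110.QF.aQR_pos b⟩
    refine (Pool.Agent.X110.QF.gQ_mult b).congr fun p => ?_
    exact (hfactor b p).symm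
  · unfold arith
    have h1 : ∀ p : Nat.Primes, factor 0 p = 1 := by
      intro p
      have hp0 : ((p:ℕ):ℝ) ≠ 0 := by exact_mod_cast p.2.ne_zero
      have hp1 : ((p:ℕ):ℝ) + 1 ≠ 0 := by exact_mod_cast (by omega : (p:ℕ) + 1 ≠ 0)
      have hS : ∑' m : ℕ, bin 0 (2 * m) * (1 / ((p:ℕ):ℝ)) ^ m = 1 := by
        rw [tsum_eq_single 0]
        · simp [bin]
        · intro m hm
          have : bin 0 (2 * m) = 0 := by
            unfold bin
            refine prod_eq_zero (i := 0) (by rw [mem_range]; omega) (by simp)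
          rw [this, zero_mul]
      unfold factor
      rw [hS, zero_mul, zero_div, Real.rpow_zero, one_mul]
      split_ifs
      · rfl
      · field_simp
        ring
    simp only [h1, tprod_one]

end

end Pool.Agent.Results.MP_ea46f5_nt.SharpLargeValues
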